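import Pool.Agent.helper79.EPT.Spec

set_option autoImplicit false

namespace Pool.Agent.EPT

open Finset

theorem STR_div (d P x : ℕ) (hd : 0 < d) (h : d ∣ P * x) : d / Nat.gcd d P ∣ x := by
  have hg : 0 < Nat.gcd d P := Nat.gcd_pos_of_pos_left P hd
  have h1 := Nat.coprime_div_gcd_div_gcd hg
  apply h1.dvd_of_dvd_mul_left
  apply Nat.dvd_of_mul_dvd_mul_left hg
  rw [Nat.mul_div_cancel' (Nat.gcd_dvd_left d P), ← mul_assoc, Nat.mul_div_cancel' (Nat.gcd_dvd_right d P)]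
  exact h

theorem STR : STR_stmt := by
  intro α β P₁ P₂ x₁ x₂ d hd h1 h2 h3
  have a1 := STR_div d P₁ x₁ hd h1
  have a2 := STR_div d P₂ x₂ hd h2
  have a3 : (d : ℤ) ∣ ((α * P₁ + 1 : ℕ) : ℤ) - ((α * P₂ + 1 : ℕ) : ℤ) + ((β * x₁ + 1 : ℕ) : ℤ) -
      ((β * x₂ + 1 : ℕ) : ℤ) := by
    have e1 : ((α * P₁ + 1 : ℕ) : ℤ) - ((α * P₂ + 1 : ℕ) : ℤ) + ((β * x₁ + 1 : ℕ) : ℤ) -
        ((β * x₂ + 1 : ℕ) : ℤ) = ((((α * P₁ + 1) * (β * x₁ + 1) : ℕ) : ℤ) -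
          (((α * P₂ + 1) * (β * x₂ + 1) : ℕ) : ℤ)) - (α * β : ℤ) * ((P₁ * x₁ : ℕ) : ℤ) +
          (α * β : ℤ) * ((P₂ * x₂ : ℕ) : ℤ) := by
      push_cast
      ring
    rw [e1]
    apply dvd_add
    · exact dvd_sub h3 (Dvd.dvd.mul_left (Int.natCast_dvd_natCast.2 h1) _)
    · exact Dvd.dvd.mul_left (Int.natCast_dvd_natCast.2 h2) _
  refine ⟨a1, a2, a3, ?_⟩
  set f := Nat.gcd (d / Nat.gcd d P₁) (d / Nat.gcd d P₂) with hf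
  have f1 : f ∣ x₁ := (Nat.gcd_dvd_left _ _).trans a1
  have f2 : f ∣ x₂ := (Nat.gcd_dvd_right _ _).trans a2
  have f3 : f ∣ d := (Nat.gcd_dvd_left _ _).trans (Nat.div_dvd_of_dvd (Nat.gcd_dvd_left _ _))
  have f4 : (f : ℤ) ∣ ((α * P₁ + 1 : ℕ) : ℤ) - ((α * P₂ + 1 : ℕ) : ℤ) := by
    have e2 : ((α * P₁ + 1 : ℕ) : ℤ) - ((α * P₂ + 1 : ℕ) : ℤ) =
        (((α * P₁ + 1 : ℕ) : ℤ) - ((α * P₂ + 1 : ℕ) : ℤ) + ((β * x₁ + 1 : ℕ) : ℤ) -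
        ((β * x₂ + 1 : ℕ) : ℤ)) - (β : ℤ) * (x₁ : ℤ) + (β : ℤ) * (x₂ : ℤ) := by
      push_cast
      ring
    rw [e2]
    apply dvd_add
    · exact dvd_sub ((Int.natCast_dvd_natCast.2 f3).trans a3)
        (Dvd.dvd.mul_left (Int.natCast_dvd_natCast.2 f1) _)
    · exact Dvd.dvd.mul_left (Int.natCast_dvd_natCast.2 f2) _
  rcases le_total (α * P₁ + 1) (α * P₂ + 1) with hle | hle
  · rw [Nat.dist_eq_sub_of_le hle]
    rw [← Int.natCast_dvd_natCast, Nat.cast_sub hle, ← dvd_neg, neg_sub]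
    exact f4
  · rw [Nat.dist_eq_sub_of_le_right hle]
    rw [← Int.natCast_dvd_natCast, Nat.cast_sub hle]
    exact f4

end Pool.Agent.EPT
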